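import Pool.Agent.Q125.PV.All

/-!
# MP_a8780a_co: partitions of highly strong tournaments with prescribed vertices

The answer to Q1 is YES: there is `C` such that for all `k, t ≥ 1`, every `C k^7 t^4`-strong
tournament `T` and every choice of distinct vertices `x_1, …, x_t` the vertex set of `T` has a
partition `V_1, …, V_t` with `x_i ∈ V_i` and `T[V_i]` `k`-strong for every `i`. In fact
`C k^4 t^3`-strong is enough.
-/

set_option autoImplicit false

namespace Pool.Agent.Results.MP_a8780a_co.PrescribedPartition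

/-- `r` is the arc relation of a tournament on `V`: every pair of distinct vertices is joined by
exactly one arc, and there are no loops. -/
def IsTournament {V : Type} (r : V → V → Prop) : Prop :=
  (∀ v, ¬ r v v) ∧ ∀ u v, u ≠ v → (r u v ↔ ¬ r v u)

/-- The subdigraph of `r` induced on `U` is strongly connected: for all `u, v` in `U` there is a
directed walk from `u` to `v` all of whose arcs have both ends in `U`. -/
def IsStrong {V : Type} (r : V → V → Prop) (U : Finset V) : Prop :=
  ∀ u ∈ U, ∀ v ∈ U, Relation.ReflTransGen (fun a b => a ∈ U ∧ b ∈ U ∧ r a b) u v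

/-- The subdigraph of `r` induced on `U` is `k`-strong: `|U| ≥ k + 1`, and the deletion of any set
of fewer than `k` vertices leaves it strongly connected. -/
def IsKStrong {V : Type} [DecidableEq V] (r : V → V → Prop) (k : ℕ) (U : Finset V) : Prop :=
  k + 1 ≤ U.card ∧ ∀ S : Finset V, S ⊆ U → S.card < k → IsStrong r (U \ S)

/-- The statement of Q1 with `k^a t^b` in the place of `k^7 t^4`. -/
def PartitionStatement (a b : ℕ) : Prop :=
  ∃ C : ℕ, 0 < C ∧ ∀ k t : ℕ, 1 ≤ k → 1 ≤ t →
    ∀ (V : Type) [Fintype V] [DecidableEq V] (r : V → V → Prop), IsTournament r →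
    IsKStrong r (C * k ^ a * t ^ b) Finset.univ →
    ∀ x : Fin t → V, Function.Injective x →
      ∃ W : Fin t → Finset V, (∀ i j, i ≠ j → Disjoint (W i) (W j)) ∧ (∀ v, ∃ i, v ∈ W i) ∧
        (∀ i, x i ∈ W i) ∧ ∀ i, IsKStrong r k (W i)

/-- The positive answer to Q1 (`k^7 t^4`), and the stronger version with `k^4 t^3`. -/
theorem result : PartitionStatement 7 4 ∧ PartitionStatement 4 3 := by
  obtain ⟨C, hC⟩ := Pool.Agent.Q125.PV.main
  have key : ∀ a b : ℕ, 4 ≤ a → 3 ≤ b → PartitionStatement a b := by
    intro a b ha hb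
    refine ⟨C + 1, Nat.succ_pos C, fun k t hk ht V _ _ r hr hs x hx => ?_⟩
    have hN : C * k ^ 4 * t ^ 3 ≤ (C + 1) * k ^ a * t ^ b :=
      Nat.mul_le_mul (Nat.mul_le_mul (Nat.le_succ C) (Nat.pow_le_pow_right hk ha))
        (Nat.pow_le_pow_right ht hb)
    obtain ⟨f, hf, hf'⟩ := hC k t hk ht V r hr _ hN hs x hx
    refine ⟨fun i => Finset.univ.filter (fun v => f v = i), ?_, ?_, ?_, hf'⟩
    · intro i j hij
      rw [Finset.disjoint_left]
      intro v hv hv'
      rw [Finset.mem_filter] at hv hv'
      exact hij (hv.2.symm.trans hv'.2)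
    · intro v
      exact ⟨f v, by simp⟩
    · intro i
      simp [hf i]
  exact ⟨key 7 4 (by norm_num) (by norm_num), key 4 3 le_rfl le_rfl⟩

end Pool.Agent.Results.MP_a8780a_co.PrescribedPartition
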